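import Pool.Agent.Helper72.AI.Stmts

set_option autoImplicit false

/-! Packet S_param: the boundary parametrisation `θ ↦ (cos θ, g θ)` of a normalised figure. -/

namespace Pool.Agent.Helper27.AI

open AffInc MeasureTheory Set Filter Topology

/-- the part of `NormFig` used for the upper boundary -/
structure NF (G : Set (ℝ × ℝ)) : Prop where
  cpt : IsCompact G
  cvx : Convex ℝ G
  right : ((1, 0) : ℝ × ℝ) ∈ G
  left : ((-1, 0) : ℝ × ℝ) ∈ G
  right_uniq : ∀ p ∈ G, p.1 = 1 → p.2 = 0
  left_uniq : ∀ p ∈ G, p.1 = -1 → p.2 = 0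

/-- the upper boundary -/
noncomputable def top (G : Set (ℝ × ℝ)) (x : ℝ) : ℝ := sSup {y | (x, y) ∈ G}

namespace NF

variable {G : Set (ℝ × ℝ)} (hG : NF G)

include hG

theorem slice_compact (x : ℝ) : IsCompact {y | (x, y) ∈ G} := by
  have h1 : {y | (x, y) ∈ G} = Prod.snd '' (G ∩ {p | p.1 = x}) := by
    ext y
    constructor
    · intro h
      exact ⟨(x, y), ⟨h, rfl⟩, rfl⟩
    · rintro ⟨⟨a, b⟩, ⟨h1, h2⟩, rfl⟩
      have h3 : a = x := h2
      subst h3
      exact h1
  rw [h1]
  exact (hG.cpt.inter_right (isClosed_eq continuous_fst continuous_const)).image continuous_snd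

theorem axis {x : ℝ} (hx : x ∈ Icc (-1 : ℝ) 1) : (x, (0 : ℝ)) ∈ G := by
  have h := hG.cvx hG.left hG.right (a := (1 - x) / 2) (b := (1 + x) / 2)
    (by linarith [hx.2]) (by linarith [hx.1]) (by ring)
  have h2 : ((1 - x) / 2) • ((-1, 0) : ℝ × ℝ) + ((1 + x) / 2) • ((1, 0) : ℝ × ℝ) = (x, 0) := by
    ext
    · simp; ring
    · simp
  rwa [h2] at h

theorem top_mem {x : ℝ} (hx : x ∈ Icc (-1 : ℝ) 1) : (x, top G x) ∈ G :=
  (hG.slice_compact x).sSup_mem ⟨0, hG.axis hx⟩

theorem le_top {x y : ℝ} (h : (x, y) ∈ G) : y ≤ top G x :=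
  le_csSup (hG.slice_compact x).bddAbove h

theorem top_nonneg {x : ℝ} (hx : x ∈ Icc (-1 : ℝ) 1) : 0 ≤ top G x := hG.le_top (hG.axis hx)

theorem top_one : top G 1 = 0 := hG.right_uniq _ (hG.top_mem (by norm_num)) rfl

theorem top_neg_one : top G (-1) = 0 := hG.left_uniq _ (hG.top_mem (by norm_num)) rfl

theorem concave : ConcaveOn ℝ (Icc (-1 : ℝ) 1) (top G) := by
  refine ⟨convex_Icc _ _, fun x hx y hy a b ha hb hab => ?_⟩
  exact hG.le_top (hG.cvx (hG.top_mem hx) (hG.top_mem hy) ha hb hab)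

/-- upper semicontinuity -/
theorem usc (x₀ : ℝ) {c : ℝ} (hc : top G x₀ < c) : ∀ᶠ x in 𝓝 x₀, ∀ y, (x, y) ∈ G → y < c := by
  have hK : IsCompact (Prod.fst '' (G ∩ {p | c ≤ p.2})) :=
    (hG.cpt.inter_right (isClosed_le continuous_const continuous_snd)).image continuous_fst
  have hx : x₀ ∉ Prod.fst '' (G ∩ {p | c ≤ p.2}) := by
    rintro ⟨⟨a, b⟩, ⟨h1, h2⟩, h3⟩
    have h4 : a = x₀ := h3
    have h5 : c ≤ b := h2
    subst h4
    exact absurd (hG.le_top h1) (by linarith)
  filter_upwards [hK.isClosed.isOpen_compl.mem_nhds hx] with x hx' y hy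
  by_contra hcon
  exact hx' ⟨(x, y), ⟨hy, not_lt.1 hcon⟩, rfl⟩

theorem cont_end {x₀ : ℝ} (h₀ : top G x₀ = 0) :
    ContinuousWithinAt (top G) (Icc (-1 : ℝ) 1) x₀ := by
  rw [ContinuousWithinAt, h₀, Metric.tendsto_nhds]
  intro ε hε
  have h1 := hG.usc x₀ (c := ε) (by rw [h₀]; exact hε)
  filter_upwards [mem_nhdsWithin_of_mem_nhds h1, self_mem_nhdsWithin] with x hx hx'
  rw [Real.dist_eq, sub_zero, abs_of_nonneg (hG.top_nonneg hx')]
  exact hx _ (hG.top_mem hx')

theorem cont : ContinuousOn (top G) (Icc (-1 : ℝ) 1) := by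
  intro x hx
  rcases eq_or_lt_of_le hx.1 with h | h
  · rw [← h]
    exact hG.cont_end hG.top_neg_one
  rcases eq_or_lt_of_le hx.2 with h' | h'
  · rw [h']
    exact hG.cont_end hG.top_one
  · have h1 := hG.concave.continuousOn_interior
    rw [interior_Icc] at h1
    exact (h1.continuousAt (Ioo_mem_nhds h h')).continuousWithinAt

end NF

/-- reflection in the first axis -/
def rfl' (G : Set (ℝ × ℝ)) : Set (ℝ × ℝ) := {p | (p.1, -p.2) ∈ G}

theorem mem_rfl' {G : Set (ℝ × ℝ)} {x y : ℝ} : (x, y) ∈ rfl' G ↔ (x, -y) ∈ G := Iff.rfl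

theorem NF.refl {G : Set (ℝ × ℝ)} (hG : NF G) : NF (rfl' G) where
  cpt := by
    have h : rfl' G = ((Homeomorph.refl ℝ).prodCongr (Homeomorph.neg ℝ)) ⁻¹' G := rfl
    rw [h]
    exact (Homeomorph.isCompact_preimage _).2 hG.cpt
  cvx := by
    intro p hp q hq a b ha hb hab
    have h := hG.cvx hp hq ha hb hab
    have h2 : a • ((p.1, -p.2) : ℝ × ℝ) + b • ((q.1, -q.2) : ℝ × ℝ) =
        ((a • p + b • q).1, -(a • p + b • q).2) := by
      ext
      · simp
      · simp; ring
    rw [h2] at h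
    exact h
  right := by
    rw [mem_rfl', neg_zero]; exact hG.right
  left := by
    rw [mem_rfl', neg_zero]; exact hG.left
  right_uniq p hp h := by
    have := hG.right_uniq _ hp h
    simpa using this
  left_uniq p hp h := by
    have := hG.left_uniq _ hp h
    simpa using this

/-- the lower boundary -/
noncomputable def bot (G : Set (ℝ × ℝ)) (x : ℝ) : ℝ := -top (rfl' G) x

namespace NF

variable {G : Set (ℝ × ℝ)} (hG : NF G)

include hG

theorem bot_mem {x : ℝ} (hx : x ∈ Icc (-1 : ℝ) 1) : (x, bot G x) ∈ G := hG.refl.top_mem hx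

theorem bot_le {x y : ℝ} (h : (x, y) ∈ G) : bot G x ≤ y := by
  have h1 : (x, -y) ∈ rfl' G := by
    rw [mem_rfl', neg_neg]; exact h
  have := hG.refl.le_top h1
  unfold bot
  linarith

theorem bot_cont : ContinuousOn (bot G) (Icc (-1 : ℝ) 1) := hG.refl.cont.neg

theorem slice {x : ℝ} (hx : x ∈ Icc (-1 : ℝ) 1) :
    {y | (x, y) ∈ G} = Icc (bot G x) (top G x) := by
  ext y
  constructor
  · intro h
    exact ⟨hG.bot_le h, hG.le_top h⟩
  · rintro ⟨h1, h2⟩
    have hc : Convex ℝ {y | (x, y) ∈ G} := by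
      intro a ha b hb s t hs ht hst
      have h := hG.cvx ha hb hs ht hst
      have h3 : s • ((x, a) : ℝ × ℝ) + t • ((x, b) : ℝ × ℝ) = (x, s • a + t • b) := by
        ext
        · simp only [Prod.fst_add, Prod.smul_fst, smul_eq_mul]
          rw [← add_mul, hst, one_mul]
        · simp
      rw [h3] at h
      exact h
    exact hc.ordConnected.out (hG.bot_mem hx) (hG.top_mem hx) ⟨h1, h2⟩

theorem bot_le_top {x : ℝ} (hx : x ∈ Icc (-1 : ℝ) 1) : bot G x ≤ top G x :=
  hG.le_top (hG.bot_mem hx)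

theorem area_eq (hs : ∀ p ∈ G, -1 ≤ p.1 ∧ p.1 ≤ 1) :
    area G = ∫ x in (-1 : ℝ)..1, (top G x - bot G x) := by
  have hm : MeasurableSet G := hG.cpt.measurableSet
  unfold area
  rw [Measure.volume_eq_prod, Measure.prod_apply hm]
  have h1 : ∀ x : ℝ, volume (Prod.mk x ⁻¹' G) =
      (Icc (-1 : ℝ) 1).indicator (fun x => ENNReal.ofReal (top G x - bot G x)) x := by
    intro x
    by_cases hx : x ∈ Icc (-1 : ℝ) 1
    · rw [indicator_of_mem hx]
      have : Prod.mk x ⁻¹' G = Icc (bot G x) (top G x) := hG.slice hx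
      rw [this, Real.volume_Icc]
    · rw [indicator_of_notMem hx]
      have : Prod.mk x ⁻¹' G = ∅ := by
        ext y
        simp only [mem_preimage, mem_empty_iff_false, iff_false]
        intro h
        exact hx (hs _ h)
      rw [this]; simp
  simp_rw [h1]
  rw [lintegral_indicator measurableSet_Icc]
  have hc : ContinuousOn (fun x => top G x - bot G x) (Icc (-1 : ℝ) 1) := hG.cont.sub hG.bot_cont
  rw [← ofReal_integral_eq_lintegral_ofReal]
  · rw [ENNReal.toReal_ofReal]
    · rw [integral_Icc_eq_integral_Ioc, ← intervalIntegral.integral_of_le (by norm_num)]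
    · apply setIntegral_nonneg measurableSet_Icc
      intro x hx
      linarith [hG.bot_le_top hx]
  · exact hc.integrableOn_Icc
  · refine (ae_restrict_iff' measurableSet_Icc).2 (Filter.Eventually.of_forall ?_)
    intro x hx
    have := hG.bot_le_top hx
    simpa using this

end NF

theorem cos_mem (θ : ℝ) : Real.cos θ ∈ Icc (-1 : ℝ) 1 := ⟨Real.neg_one_le_cos θ, Real.cos_le_one θ⟩

theorem subst_cos {f : ℝ → ℝ} (hf : ContinuousOn f (Icc (-1 : ℝ) 1)) (a b : ℝ) :
    ∫ θ in a..b, f (Real.cos θ) * Real.sin θ = -∫ x in Real.cos a..Real.cos b, f x := by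
  have h := intervalIntegral.integral_comp_mul_deriv'' (a := a) (b := b) (f := Real.cos)
    (f' := fun θ => -Real.sin θ) (g := f) Real.continuous_cos.continuousOn
    (fun x _ => (Real.hasDerivAt_cos x).hasDerivWithinAt)
    (Real.continuous_sin.neg.continuousOn) (hf.mono (by
      rintro _ ⟨θ, -, rfl⟩
      exact cos_mem θ))
  rw [← h, ← intervalIntegral.integral_neg]
  congr 1
  ext θ
  simp

open Classical in
/-- the parametrisation -/
noncomputable def gp (G : Set (ℝ × ℝ)) (θ : ℝ) : ℝ :=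
  if 0 ≤ Real.sin θ then top G (Real.cos θ) else bot G (Real.cos θ)

theorem pf_S_param : AffInc.S_param := by
  intro G hN
  have hG : NF G := ⟨hN.fig.cpt, hN.fig.cvx, hN.right, hN.left, hN.right_uniq, hN.left_uniq⟩
  have htc : Continuous fun θ => top G (Real.cos θ) :=
    hG.cont.comp_continuous Real.continuous_cos cos_mem
  have hbc : Continuous fun θ => bot G (Real.cos θ) :=
    hG.bot_cont.comp_continuous Real.continuous_cos cos_mem
  have hends : ∀ θ, Real.sin θ = 0 → ∀ y, (Real.cos θ, y) ∈ G → y = 0 := by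
    intro θ hθ y hy
    rcases Real.sin_eq_zero_iff_cos_eq.1 hθ with h | h
    · exact hG.right_uniq _ hy h
    · exact hG.left_uniq _ hy h
  have heq : ∀ θ, Real.sin θ = 0 → top G (Real.cos θ) = bot G (Real.cos θ) := by
    intro θ hθ
    rw [hends θ hθ _ (hG.top_mem (cos_mem θ)), hends θ hθ _ (hG.bot_mem (cos_mem θ))]
  have hup : ∀ θ, 0 ≤ Real.sin θ → gp G θ = top G (Real.cos θ) := fun θ h => if_pos h
  have hlo : ∀ θ, Real.sin θ ≤ 0 → gp G θ = bot G (Real.cos θ) := by
    intro θ h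
    rcases eq_or_lt_of_le h with h | h
    · rw [hup θ h.ge, heq θ h]
    · exact if_neg (not_le.2 h)
  have hcont : Continuous (gp G) := by
    unfold gp
    exact Continuous.if_le htc hbc continuous_const Real.continuous_sin
      (fun θ h => heq θ h.symm)
  refine ⟨gp G, hcont, ?_, ?_, ?_, ?_, ?_⟩
  · intro θ
    unfold gp
    rw [Real.sin_add_two_pi, Real.cos_add_two_pi]
  · intro θ
    rcases le_total 0 (Real.sin θ) with h | h
    · rw [hup θ h]; exact hG.top_mem (cos_mem θ)
    · rw [hlo θ h]; exact hG.bot_mem (cos_mem θ)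
  · intro θ h y hy
    rw [hup θ h]; exact hG.le_top hy
  · intro θ h y hy
    rw [hlo θ h]; exact hG.bot_le hy
  · rw [hG.area_eq hN.strip]
    have hint : ∀ a b, IntervalIntegrable (fun θ => gp G θ * Real.sin θ) volume a b := fun a b =>
      (hcont.mul Real.continuous_sin).intervalIntegrable a b
    rw [← intervalIntegral.integral_add_adjacent_intervals (hint 0 Real.pi)
      (hint Real.pi (2 * Real.pi))]
    have e1 : ∫ θ in (0 : ℝ)..Real.pi, gp G θ * Real.sin θ =
        ∫ θ in (0 : ℝ)..Real.pi, top G (Real.cos θ) * Real.sin θ := by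
      apply intervalIntegral.integral_congr
      intro θ hθ
      rw [uIcc_of_le Real.pi_pos.le] at hθ
      show gp G θ * Real.sin θ = top G (Real.cos θ) * Real.sin θ
      rw [hup θ (Real.sin_nonneg_of_mem_Icc hθ)]
    have e2 : ∫ θ in Real.pi..(2 * Real.pi), gp G θ * Real.sin θ =
        ∫ θ in Real.pi..(2 * Real.pi), bot G (Real.cos θ) * Real.sin θ := by
      apply intervalIntegral.integral_congr
      intro θ hθ
      rw [uIcc_of_le (by linarith [Real.pi_pos])] at hθ
      show gp G θ * Real.sin θ = bot G (Real.cos θ) * Real.sin θ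
      have h1 : Real.sin θ ≤ 0 := by
        have h2 := Real.sin_nonneg_of_mem_Icc
          (x := θ - Real.pi) ⟨by linarith [hθ.1], by linarith [hθ.2]⟩
        rw [Real.sin_sub_pi] at h2
        linarith
      rw [hlo θ h1]
    rw [e1, e2, subst_cos hG.cont, subst_cos hG.bot_cont, Real.cos_zero, Real.cos_pi,
      Real.cos_two_pi, intervalIntegral.integral_symm (-1 : ℝ) 1, neg_neg]
    rw [intervalIntegral.integral_sub]
    · ring
    · exact hG.cont.intervalIntegrable_of_Icc (by norm_num)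
    · exact hG.bot_cont.intervalIntegrable_of_Icc (by norm_num)

end Pool.Agent.Helper27.AI
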